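import Pool.Agent.H94.PAv.Bridge

set_option autoImplicit false

namespace Pool.Agent.Results.MP_d9ab47_co.Disproof

open Pool.Agent.H94.PAv Filter Topology

/-- The conjectured chain `|Ω_n^{1,2,3}(132)| ~ |PAv_n(132)| ~ |SAv_{n-1}(132)|` is false: the first
equivalence holds (both counts are asymptotic to `C(n, ⌊n/2⌋)`), while the counts `|PAv_n(132)|` and
`|Ω_n^{1,2,3}(132)|` are eventually at most `19/20` times `|SAv_{n-1}(132)|`, so that neither of the
other two equivalences holds. -/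
theorem result :
    (Tendsto (fun n : ℕ => ((Omega n {1, 2, 3} p132).ncard : ℝ) / ((PAv n p132).ncard : ℝ))
      atTop (𝓝 1)) ∧
    (Tendsto (fun n : ℕ => ((PAv n p132).ncard : ℝ) / (n.choose (n / 2) : ℝ)) atTop (𝓝 1)) ∧
    (∀ᶠ n : ℕ in atTop, ((PAv n p132).ncard : ℝ) ≤ ((Omega n {1, 2, 3} p132).ncard : ℝ) ∧
      ((Omega n {1, 2, 3} p132).ncard : ℝ) ≤ 19 / 20 * ((SAv (n - 1) p132).ncard : ℝ)) ∧
    (¬ Tendsto (fun n : ℕ => ((PAv n p132).ncard : ℝ) / ((SAv (n - 1) p132).ncard : ℝ))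
      atTop (𝓝 1)) ∧
    (¬ Tendsto (fun n : ℕ => ((Omega n {1, 2, 3} p132).ncard : ℝ) /
      ((SAv (n - 1) p132).ncard : ℝ)) atTop (𝓝 1)) := by
  have hpos : ∀ n, (0 : ℝ) < ii n := fun n => by exact_mod_cast ii_pos n
  have hP : ∀ n, (ii n : ℝ) ≤ ((PAv n p132).ncard : ℝ) := fun n => by exact_mod_cast I_le_PAv n
  have hPT : ∀ n, ((PAv n p132).ncard : ℝ) ≤ ((Omega n {1, 2, 3} p132).ncard : ℝ) :=
    fun n => by exact_mod_cast PAv_le_T n
  have hT : ∀ n, ((Omega n {1, 2, 3} p132).ncard : ℝ) ≤ ii n * (1 + eps n) := fun n => by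
    rw [T_card]; exact T_upper n
  have hlim : Tendsto (fun n => 1 + eps n) atTop (𝓝 1) := by
    simpa using eps_tendsto.const_add 1
  have h3 : ∀ᶠ n : ℕ in atTop,
      ((PAv n p132).ncard : ℝ) ≤ ((Omega n {1, 2, 3} p132).ncard : ℝ) ∧
      ((Omega n {1, 2, 3} p132).ncard : ℝ) ≤ 19 / 20 * ((SAv (n - 1) p132).ncard : ℝ) := by
    filter_upwards [T_le_S] with n hn
    refine ⟨hPT n, ?_⟩
    rw [T_card, SAv_card]
    exact hn
  have hS : ∀ n, (0 : ℝ) < ((SAv (n - 1) p132).ncard : ℝ) := by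
    intro n
    rw [SAv_card]
    exact_mod_cast lt_of_lt_of_le (ii_pos (n - 1)) (I_le_S (n - 1))
  have hno : ∀ f : ℕ → ℝ, (∀ᶠ n in atTop, f n ≤ 19 / 20 * ((SAv (n - 1) p132).ncard : ℝ)) →
      ¬ Tendsto (fun n : ℕ => f n / ((SAv (n - 1) p132).ncard : ℝ)) atTop (𝓝 1) := by
    intro f hf ht
    have h1 : ∀ᶠ n in atTop, f n / ((SAv (n - 1) p132).ncard : ℝ) ≤ 19 / 20 := by
      filter_upwards [hf] with n hn
      rw [div_le_iff₀ (hS n)]
      exact hn
    have h2 := le_of_tendsto ht h1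
    norm_num at h2
  refine ⟨?_, ?_, h3, ?_, ?_⟩
  · apply tendsto_of_tendsto_of_tendsto_of_le_of_le tendsto_const_nhds hlim
    · intro n
      simp only
      rw [le_div_iff₀ (lt_of_lt_of_le (hpos n) (hP n)), one_mul]
      exact hPT n
    · intro n
      simp only
      rw [div_le_iff₀ (lt_of_lt_of_le (hpos n) (hP n))]
      have h1 : (0 : ℝ) < ii n * (1 + eps n) :=
        lt_of_lt_of_le (lt_of_lt_of_le (hpos n) (hP n)) ((hPT n).trans (hT n))
      have h2 : 0 < 1 + eps n := (mul_pos_iff_of_pos_left (hpos n)).mp h1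
      calc _ ≤ _ := hT n
        _ = (1 + eps n) * ii n := by ring
        _ ≤ _ := mul_le_mul_of_nonneg_left (hP n) h2.le
  · apply tendsto_of_tendsto_of_tendsto_of_le_of_le tendsto_const_nhds hlim
    · intro n
      have hc : (0 : ℝ) < (n.choose (n / 2) : ℝ) := hpos n
      simp only
      rw [le_div_iff₀ hc, one_mul]
      exact hP n
    · intro n
      have hc : (0 : ℝ) < (n.choose (n / 2) : ℝ) := hpos n
      simp only
      rw [div_le_iff₀ hc, mul_comm]
      exact (hPT n).trans (hT n)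
  · exact hno _ (h3.mono fun n hn => hn.1.trans hn.2)
  · exact hno _ (h3.mono fun n hn => hn.2)

end Pool.Agent.Results.MP_d9ab47_co.Disproof
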